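import Pool.Agent.Helper40_Dio.FStmt

/-! # DIO (MP_9ca527_nt), Part F: PR1, the even type with `f = 0`. -/

set_option autoImplicit false

namespace Pool.Agent.DIO.H58

open Pool.Agent.DIO

/-- `r² - 1` times a nonzero square is not a square. -/
theorem sq_sub_one_mul {r n m : ℤ} (hr : 2 ≤ r) (hn : n ≠ 0) (h : (r ^ 2 - 1) * n ^ 2 = m ^ 2) :
    False := by
  have hd : n ∣ m := by
    have : n ^ 2 ∣ m ^ 2 := ⟨r ^ 2 - 1, by rw [← h]; ring⟩
    exact (Int.pow_dvd_pow_iff (by norm_num)).1 this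
  obtain ⟨k, rfl⟩ := hd
  have hn2 : n ^ 2 ≠ 0 := pow_ne_zero 2 hn
  have h2 : r ^ 2 - 1 = k ^ 2 := by
    have : n ^ 2 * (r ^ 2 - 1) = n ^ 2 * k ^ 2 := by rw [mul_comm, h]; ring
    exact mul_left_cancel₀ hn2 this
  have h3 : |k| < |r| := sq_lt_sq.1 (by linarith)
  have h4 : |r| = r := abs_of_nonneg (by linarith)
  have h5 : |k| ^ 2 = k ^ 2 := sq_abs k
  have h6 : |k| ≤ r - 1 := by omega
  have h7 : 0 ≤ |k| := abs_nonneg k
  nlinarith

/-! small lemmas with a clean context -/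

theorem hl_sq_le {x c : ℤ} (hx : 0 ≤ x) (h : x < c) : x * c + 1 ≤ c * c := by nlinarith

theorem hl_le {x y : ℤ} (hy : 0 ≤ y) (h : x * x ≤ y * y) : x ≤ y :=
  nonneg_le_nonneg_of_sq_le_sq hy h

theorem hl_u {m Y : ℤ} (h : m ≤ Y ^ 4) : m + 1 ≤ (Y ^ 2 + 1) * (Y ^ 2 + 1) := by
  have : 0 ≤ Y ^ 2 := by positivity
  nlinarith

theorem hl_left {a g m : ℤ} (ha : 1 ≤ a) (hg : 1 ≤ g) (h : a * g ≤ m) : a ≤ m := by nlinarith

theorem hl_right {a g m : ℤ} (ha : 1 ≤ a) (hg : 1 ≤ g) (h : a * g ≤ m) : g ≤ m := by nlinarith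

theorem hl_sq {Y : ℤ} (h : 100 ≤ Y) : 10000 ≤ Y ^ 2 := by nlinarith

theorem hl_pw {x y : ℤ} (hx : 0 ≤ x) (h : x ≤ y) : x ^ 2 ≤ y ^ 2 := pow_le_pow_left₀ hx h 2

theorem hl_mul {m n k : ℤ} (hk : 0 ≤ k) (h : m ≤ n) : m * k ≤ n * k :=
  mul_le_mul_of_nonneg_right h hk

theorem lt_c {a b c r s t g u v w : ℕ} (ne : NEd a b c r s t g u v w) : a < c ∧ b < c := by
  have h1 := ne.ha
  have h2 := ne.hb
  have h3 := ne.hg
  have h4 := ne.hc
  constructor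
  · rw [h4]; omega
  · rw [h4]; omega

/-- the case of large `a g` -/
theorem large {a b c s t μ ν Y ε r : ℤ} (ha : 1 ≤ a) (hab : a < b) (hr : r * r = a * b + 1)
    (hr0 : 0 ≤ r)
    (hs : s * s = a * c + 1) (ht : t * t = b * c + 1) (hs0 : 0 ≤ s) (ht0 : 0 ≤ t)
    (hε : ε = 1 ∨ ε = -1) (hν : 1 ≤ ν) (hY : 100 ≤ Y) (hμ0 : 0 ≤ μ) (hμ : μ ≤ Y) (hνY : ν ≤ Y)
    (hc : 4 * Y ^ 4 * b < c)
    (hdiv : c ∣ 2 * ε * (a * μ ^ 2 - b * ν ^ 2) + 2 * s * μ - 2 * t * ν) : False := by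
  have hb : 2 ≤ b := by linarith
  have hY4 : 0 < Y ^ 4 := by positivity
  have hY2 : 0 < Y ^ 2 := by positivity
  have hY2' : 10000 ≤ Y ^ 2 := hl_sq hY
  have hY4b : 0 ≤ Y ^ 4 * b := by positivity
  have hc0 : 0 < c := by linarith
  -- `2 Y² t < c`
  have h1 : (2 * Y ^ 2 * t) ^ 2 < c ^ 2 := by
    have e1 : (2 * Y ^ 2 * t) ^ 2 = 4 * Y ^ 4 * b * c + 4 * Y ^ 4 := by
      have : (2 * Y ^ 2 * t) ^ 2 = 4 * Y ^ 4 * (t * t) := by ring
      rw [this, ht]; ring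
    rw [e1]
    have e2 : 4 * Y ^ 4 * b ≤ c - 1 := by linarith
    have e3 : Y ^ 4 * 1 ≤ Y ^ 4 * b := mul_le_mul_of_nonneg_left (by linarith) hY4.le
    have e4 : 4 * Y ^ 4 * b * c ≤ (c - 1) * c := mul_le_mul_of_nonneg_right e2 hc0.le
    have e5 : (c - 1) * c = c ^ 2 - c := by ring
    linarith
  have ht1 : 2 * Y ^ 2 * t < c := by
    have := abs_lt_of_sq_lt_sq h1 hc0.le
    exact (abs_lt.1 this).2
  have hst : s ≤ t := by
    have : s * s ≤ t * t := by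
      rw [hs, ht]
      have := hl_mul hc0.le hab.le
      linarith
    exact hl_le ht0 this
  have hs1 : 2 * Y ^ 2 * s < c := by
    have : Y ^ 2 * s ≤ Y ^ 2 * t := mul_le_mul_of_nonneg_left hst hY2.le
    linarith
  have htY : 200 * (Y * t) ≤ c := by
    have : 200 * (Y * t) ≤ 2 * Y ^ 2 * t := by
      have h0 : 0 ≤ Y * t := by positivity
      have h1 : 100 * (Y * t) ≤ Y * (Y * t) := hl_mul h0 hY
      have h2 : Y * (Y * t) = Y ^ 2 * t := by ring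
      linarith
    linarith
  have hsY : 200 * (Y * s) ≤ c := by
    have : 0 ≤ Y := by linarith
    have : Y * s ≤ Y * t := mul_le_mul_of_nonneg_left hst this
    linarith
  have hbY : 40000 * (Y ^ 2 * b) ≤ c := by
    have : 40000 * (Y ^ 2 * b) ≤ 4 * Y ^ 4 * b := by
      have h : 0 ≤ Y ^ 2 * b := by positivity
      have h1 : 10000 * (Y ^ 2 * b) ≤ Y ^ 2 * (Y ^ 2 * b) := hl_mul h hY2'
      have h2 : Y ^ 2 * (Y ^ 2 * b) = Y ^ 4 * b := by ring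
      linarith
    linarith
  -- bounds
  have hμ2 : μ ^ 2 ≤ Y ^ 2 := hl_pw hμ0 hμ
  have hν2 : ν ^ 2 ≤ Y ^ 2 := hl_pw (by linarith) hνY
  have hD1 : a * μ ^ 2 ≤ Y ^ 2 * b := by
    have : a * μ ^ 2 ≤ b * Y ^ 2 := mul_le_mul hab.le hμ2 (by positivity) (by linarith)
    linarith
  have hD2 : b * ν ^ 2 ≤ Y ^ 2 * b := by
    have : b * ν ^ 2 ≤ b * Y ^ 2 := mul_le_mul_of_nonneg_left hν2 (by linarith)
    linarith
  have hD3 : 0 ≤ a * μ ^ 2 := by positivity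
  have hD4 : 0 ≤ b * ν ^ 2 := by positivity
  have hE1 : s * μ ≤ Y * s := by
    have := hl_mul hs0 hμ
    linarith
  have hE2 : t * ν ≤ Y * t := by
    have := hl_mul ht0 hνY
    linarith
  have hE3 : 0 ≤ s * μ := by positivity
  have hE4 : 0 ≤ t * ν := by positivity
  have hzero : 2 * ε * (a * μ ^ 2 - b * ν ^ 2) + 2 * s * μ - 2 * t * ν = 0 := by
    apply Int.eq_zero_of_abs_lt_dvd hdiv
    rw [abs_lt]
    rcases hε with rfl | rfl
    · constructor <;> linarith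
    · constructor <;> linarith
  set D := b * ν ^ 2 - a * μ ^ 2 with hDdef
  have hrel : s * μ - t * ν = ε * D := by
    have : 2 * (s * μ - t * ν) = 2 * (ε * D) := by rw [hDdef]; linarith
    linarith
  have hε2 : ε ^ 2 = 1 := by rcases hε with rfl | rfl <;> norm_num
  have hDne : D ≠ 0 := by
    intro h0
    have hr2 : 2 ≤ r := by
      have hab2 : 1 * 2 ≤ a * b := mul_le_mul ha hb (by norm_num) (by linarith)
      by_contra hcon
      have h01 : r ≤ 1 := by linarith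
      have := mul_le_mul h01 h01 hr0 (by norm_num)
      linarith
    apply sq_sub_one_mul (r := r) (n := ν) (m := a * μ) hr2 (by linarith)
    have : b * ν ^ 2 = a * μ ^ 2 := by linarith
    have e : r ^ 2 - 1 = a * b := by rw [pow_two, hr]; ring
    rw [e, mul_assoc, this]; ring
  have hkey : D * (c - D + 2 * ε * (s * μ)) = μ ^ 2 - ν ^ 2 := by
    have e1 : (t * ν) ^ 2 = (s * μ - ε * D) ^ 2 := by
      have : t * ν = s * μ - ε * D := by linarith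
      rw [this]
    have e2 : (t * ν) ^ 2 = (b * c + 1) * ν ^ 2 := by rw [mul_pow, pow_two t, ht]
    have e3 : (s * μ) ^ 2 = (a * c + 1) * μ ^ 2 := by rw [mul_pow, pow_two s, hs]
    have e4 : (s * μ - ε * D) ^ 2 = (s * μ) ^ 2 - 2 * ε * (s * μ) * D + ε ^ 2 * D ^ 2 := by ring
    rw [e4, e2, e3, hε2] at e1
    have e5 : c * D = (b * c) * ν ^ 2 - (a * c) * μ ^ 2 := by rw [hDdef]; ring
    linear_combination e1 + e5
  have hbig : Y ^ 2 < |c - D + 2 * ε * (s * μ)| := by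
    rw [lt_abs]; left
    have hDle : D ≤ Y ^ 2 * b := by rw [hDdef]; linarith
    have hYb : Y ^ 2 * 1 ≤ Y ^ 2 * b := mul_le_mul_of_nonneg_left (by linarith) hY2.le
    rcases hε with rfl | rfl
    · linarith
    · linarith
  have hone : 1 ≤ |D| := Int.one_le_abs hDne
  have : Y ^ 2 < |μ ^ 2 - ν ^ 2| := by
    rw [← hkey, abs_mul]
    calc Y ^ 2 < |c - D + 2 * ε * (s * μ)| := hbig
      _ = 1 * |c - D + 2 * ε * (s * μ)| := (one_mul _).symm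
      _ ≤ |D| * |c - D + 2 * ε * (s * μ)| := mul_le_mul_of_nonneg_right hone (abs_nonneg _)
  have h2 : |μ ^ 2 - ν ^ 2| ≤ Y ^ 2 := by
    have q1 := sq_nonneg μ
    have q2 := sq_nonneg ν
    rw [abs_le]; constructor <;> linarith
  linarith

theorem pow_le_six {Y : ℤ} (hY : 100 ≤ Y) : Y ≤ Y ^ 6 ∧ Y ^ 2 ≤ Y ^ 6 ∧ Y ^ 3 ≤ Y ^ 6 ∧
    Y ^ 4 ≤ Y ^ 6 ∧ 50 * Y ^ 6 ≤ Y ^ 7 := by
  have hY1 : (1 : ℤ) ≤ Y := by linarith
  refine ⟨by simpa using pow_le_pow_right₀ hY1 (show 1 ≤ 6 by norm_num),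
    pow_le_pow_right₀ hY1 (by norm_num), pow_le_pow_right₀ hY1 (by norm_num),
    pow_le_pow_right₀ hY1 (by norm_num), ?_⟩
  have h : (0 : ℤ) < Y ^ 6 := by positivity
  have e : Y ^ 7 = Y * Y ^ 6 := by ring
  rw [e]
  exact mul_le_mul_of_nonneg_right (by linarith) h.le

theorem abs_U {Y k ν u m ε : ℤ} (hY : 100 ≤ Y) (hε : ε = 1 ∨ ε = -1) (hkb : |k| ≤ 8 * Y ^ 2)
    (hν0 : 0 ≤ ν) (hν : ν ≤ Y) (hu0 : 0 ≤ u) (hu : u ≤ Y ^ 2 + 1) (hm0 : 0 ≤ m) (hm : m ≤ Y ^ 4) :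
    |-2 * ε * ν ^ 2 - 2 * u * ν - k * (1 + 2 * m)| ≤ Y ^ 7 := by
  obtain ⟨p1, p2, p3, p4, p5⟩ := pow_le_six hY
  have hY1 : (1 : ℤ) ≤ Y := by linarith
  have h1 : u * ν ≤ Y ^ 3 + Y := by
    have := mul_le_mul hu hν hν0 (by positivity)
    linarith
  have h2 : |k * (1 + 2 * m)| ≤ 24 * Y ^ 6 := by
    rw [abs_mul]
    have h3 : |1 + 2 * m| ≤ 3 * Y ^ 4 := by
      rw [abs_of_nonneg (by positivity)]
      have : (1 : ℤ) ≤ Y ^ 4 := one_le_pow₀ hY1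
      linarith
    have := mul_le_mul hkb h3 (abs_nonneg _) (by positivity)
    calc _ ≤ _ := this
      _ = 24 * Y ^ 6 := by ring
  have h4 := abs_le.1 h2
  have g1 : 0 ≤ u * ν := by positivity
  have g2 : 0 ≤ ν ^ 2 := by positivity
  have g3 : ν ^ 2 ≤ Y ^ 2 := by
    have := mul_le_mul hν hν hν0 (by linarith)
    linarith
  clear h2 hkb
  generalize k * (1 + 2 * m) = K at *
  rw [abs_le]
  rcases hε with rfl | rfl
  · constructor <;> linarith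
  · constructor <;> linarith

theorem abs_V {Y k ν u : ℤ} (hY : 100 ≤ Y) (hkb : |k| ≤ 8 * Y ^ 2)
    (hν0 : 0 ≤ ν) (hν : ν ≤ Y) (hu0 : 0 ≤ u) (hu : u ≤ Y ^ 2 + 1) :
    |-2 * ν - 2 * u * k| ≤ Y ^ 7 := by
  obtain ⟨p1, p2, p3, p4, p5⟩ := pow_le_six hY
  have h2 : |u * k| ≤ 8 * Y ^ 4 + 8 * Y ^ 2 := by
    rw [abs_mul, abs_of_nonneg hu0]
    have := mul_le_mul hu hkb (abs_nonneg _) (by positivity)
    linarith
  have h4 := abs_le.1 h2
  have h6 : (0 : ℤ) < Y ^ 6 := by positivity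
  rw [abs_le]
  constructor <;> linarith

theorem abs_Z {a b c s t μ ν Y ε : ℤ} (hε : ε = 1 ∨ ε = -1) (ha : 0 ≤ a) (hb : 0 ≤ b)
    (hs : 0 ≤ s) (ht : 0 ≤ t) (hac : a ≤ c) (hbc : b ≤ c) (hsc : s ≤ c) (htc : t ≤ c)
    (hμ0 : 0 ≤ μ) (hν0 : 0 ≤ ν) (hμ : μ ≤ Y) (hν : ν ≤ Y) (hY : 1 ≤ Y) :
    |2 * ε * (a * μ ^ 2 - b * ν ^ 2) + 2 * s * μ - 2 * t * ν| ≤ 8 * Y ^ 2 * c := by
  have hc0 : 0 ≤ c := ha.trans hac
  have hμ2 : μ ^ 2 ≤ Y ^ 2 := pow_le_pow_left₀ hμ0 hμ 2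
  have hν2 : ν ^ 2 ≤ Y ^ 2 := pow_le_pow_left₀ hν0 hν 2
  have hYY : Y ≤ Y ^ 2 := by nlinarith
  have h1 : a * μ ^ 2 ≤ Y ^ 2 * c := by
    have := mul_le_mul hac hμ2 (by positivity) hc0
    linarith
  have h2 : b * ν ^ 2 ≤ Y ^ 2 * c := by
    have := mul_le_mul hbc hν2 (by positivity) hc0
    linarith
  have h3 : s * μ ≤ Y ^ 2 * c := by
    have := mul_le_mul hsc (hμ.trans hYY) hμ0 hc0
    linarith
  have h4 : t * ν ≤ Y ^ 2 * c := by
    have := mul_le_mul htc (hν.trans hYY) hν0 hc0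
    linarith
  have g1 : 0 ≤ a * μ ^ 2 := by positivity
  have g2 : 0 ≤ b * ν ^ 2 := by positivity
  have g3 : 0 ≤ s * μ := by positivity
  have g4 : 0 ≤ t * ν := by positivity
  have g5 : 0 ≤ Y ^ 2 * c := by positivity
  rw [abs_le]
  rcases hε with rfl | rfl
  · constructor <;> linarith
  · constructor <;> linarith

theorem abs_R {a g s k μ Y ε : ℤ} (hY : 100 ≤ Y) (hε : ε = 1 ∨ ε = -1) (ha : 0 ≤ a)
    (hg : 0 ≤ g) (haY : a ≤ Y ^ 4) (hgY : g ≤ Y ^ 4) (hs0 : 0 ≤ s) (hkb : |k| ≤ 8 * Y ^ 2)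
    (hμ0 : 0 ≤ μ) (hμ : μ ≤ Y) :
    |2 * ε * (a * μ ^ 2) + 2 * (s * μ) - k * (a + g)| ≤ 20 * Y ^ 6 + 2 * Y * s := by
  have hμ2 : μ ^ 2 ≤ Y ^ 2 := pow_le_pow_left₀ hμ0 hμ 2
  have h1 : a * μ ^ 2 ≤ Y ^ 6 := by
    have := mul_le_mul haY hμ2 (by positivity) (by positivity)
    calc _ ≤ _ := this
      _ = _ := by ring
  have h2 : |k * (a + g)| ≤ 16 * Y ^ 6 := by
    rw [abs_mul, abs_of_nonneg (show (0 : ℤ) ≤ a + g by positivity)]
    have := mul_le_mul hkb (add_le_add haY hgY) (by positivity) (by positivity)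
    calc _ ≤ _ := this
      _ = _ := by ring
  have h3 : s * μ ≤ Y * s := by
    have := mul_le_mul_of_nonneg_left hμ hs0
    linarith
  have h4 := abs_le.1 h2
  have g1 : 0 ≤ a * μ ^ 2 := by positivity
  have g3 : 0 ≤ s * μ := by positivity
  have g4 : 0 ≤ Y ^ 6 := by positivity
  have g5 : 0 ≤ Y * s := mul_nonneg (by linarith) hs0
  clear h2 hkb
  generalize k * (a + g) = K at *
  rw [abs_le]
  rcases hε with rfl | rfl
  · constructor <;> linarith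
  · constructor <;> linarith

/-- the bound for `b` -/
theorem b_bound {b s Y : ℤ} (hY : 100 ≤ Y) (hb : 1 ≤ b) (hs0 : 0 ≤ s)
    (hs2 : s * s ≤ 17 * Y ^ 8 * b)
    (hB : b ≤ 10 * (Y ^ 7) ^ 3 * (20 * Y ^ 6 + 2 * Y * s + 1)) : b ≤ Y ^ 68 := by
  obtain ⟨p1, p2, p3, p4, p5⟩ := pow_le_six hY
  have hY1 : (1 : ℤ) ≤ Y := by linarith
  have hB2 : b ≤ Y ^ 29 * (1 + s) := by
    have h1 : 20 * Y ^ 6 + 2 * Y * s + 1 ≤ 21 * Y ^ 6 * (1 + s) := by
      have e1 : (1 : ℤ) ≤ Y ^ 6 := one_le_pow₀ hY1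
      have e2 : Y * s ≤ Y ^ 6 * s := mul_le_mul_of_nonneg_right p1 hs0
      have e3 : 0 ≤ Y ^ 6 * s := by positivity
      linarith
    have h2 : (10 : ℤ) * (Y ^ 7) ^ 3 * (21 * Y ^ 6 * (1 + s)) ≤ Y ^ 29 * (1 + s) := by
      have e1 : (210 : ℤ) ≤ Y ^ 2 := le_trans (by norm_num) (hl_sq hY)
      have e2 : (0 : ℤ) ≤ Y ^ 27 * (1 + s) := by positivity
      calc (10 : ℤ) * (Y ^ 7) ^ 3 * (21 * Y ^ 6 * (1 + s)) =
          210 * (Y ^ 27 * (1 + s)) := by ring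
        _ ≤ Y ^ 2 * (Y ^ 27 * (1 + s)) := mul_le_mul_of_nonneg_right e1 e2
        _ = Y ^ 29 * (1 + s) := by ring
    calc b ≤ _ := hB
      _ ≤ 10 * (Y ^ 7) ^ 3 * (21 * Y ^ 6 * (1 + s)) :=
          mul_le_mul_of_nonneg_left h1 (by positivity)
      _ ≤ _ := h2
  have h1 : b * b ≤ (Y ^ 29 * (1 + s)) * (Y ^ 29 * (1 + s)) :=
    mul_le_mul hB2 hB2 (by linarith) (by positivity)
  have h2 : (1 + s) * (1 + s) ≤ 2 + 2 * (s * s) := by nlinarith [sq_nonneg (s - 1)]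
  have h3 : (1 + s) * (1 + s) ≤ 36 * (Y ^ 8 * b) := by
    have h4 : (1 : ℤ) ≤ Y ^ 8 * b := one_le_mul_of_one_le_of_one_le (one_le_pow₀ hY1) hb
    linarith
  have h5 : b * b ≤ Y ^ 68 * b := by
    calc b * b ≤ _ := h1
      _ = Y ^ 58 * ((1 + s) * (1 + s)) := by ring
      _ ≤ Y ^ 58 * (36 * (Y ^ 8 * b)) := mul_le_mul_of_nonneg_left h3 (by positivity)
      _ = 36 * (Y ^ 66 * b) := by ring
      _ ≤ Y ^ 2 * (Y ^ 66 * b) :=
          mul_le_mul_of_nonneg_right (le_trans (by norm_num) (hl_sq hY)) (by positivity)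
      _ = Y ^ 68 * b := by ring
  exact le_of_mul_le_mul_right h5 (by linarith)

/-- the case of small `a g` -/
theorem small (hirr : IrrStatement) {a b c r s t g u v w μ ν Y : ℕ} {ε : ℤ} (hab : a < b)
    (ne : NEd a b c r s t g u v w) (hε : ε = 1 ∨ ε = -1) (hν : 1 ≤ ν) (hY : 100 ≤ Y)
    (hμ : μ ≤ Y) (hνY : ν ≤ Y) (hag : a * g ≤ Y ^ 4)
    (hdiv : (c : ℤ) ∣ 2 * ε * (a * (μ : ℤ) ^ 2 - b * (ν : ℤ) ^ 2) + 2 * s * μ - 2 * t * ν) :
    c ≤ Y ^ 5000 := by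
  obtain ⟨k, hk⟩ := hdiv
  have ha := ne.ha
  have hg := ne.hg
  have hb := ne.hb
  obtain ⟨hac, hbc⟩ := lt_c ne
  -- casts
  have hY' : (100 : ℤ) ≤ Y := by exact_mod_cast hY
  have ha' : (1 : ℤ) ≤ a := by exact_mod_cast ha
  have hb' : (1 : ℤ) ≤ b := by exact_mod_cast hb
  have hg' : (1 : ℤ) ≤ g := by exact_mod_cast hg
  have hab' : (a : ℤ) < b := by exact_mod_cast hab
  have hac' : (a : ℤ) < c := by exact_mod_cast hac
  have hbc' : (b : ℤ) < c := by exact_mod_cast hbc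
  have hag' : (a : ℤ) * g ≤ (Y : ℤ) ^ 4 := by exact_mod_cast hag
  have hs' : (s : ℤ) * s = a * c + 1 := by exact_mod_cast ne.hs
  have ht' : (t : ℤ) * t = b * c + 1 := by exact_mod_cast ne.ht
  have hu' : (u : ℤ) * u = a * g + 1 := by exact_mod_cast ne.hu
  have hc' : (c : ℤ) = a + b + g + 2 * a * b * g + 2 * (r * (u * v)) := by exact_mod_cast ne.hc
  have hte : (t : ℤ) = b * u + r * v := by exact_mod_cast ne.t_eq
  have hcle : (c : ℤ) ≤ 16 * (a * b * g) := by exact_mod_cast ne.c_le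
  have hμ' : (μ : ℤ) ≤ Y := by exact_mod_cast hμ
  have hν' : (ν : ℤ) ≤ Y := by exact_mod_cast hνY
  have hν1 : (1 : ℤ) ≤ ν := by exact_mod_cast hν
  have hμ0 : (0 : ℤ) ≤ μ := Int.natCast_nonneg _
  have hs0 : (0 : ℤ) ≤ s := Int.natCast_nonneg _
  have ht0 : (0 : ℤ) ≤ t := Int.natCast_nonneg _
  have hu0 : (0 : ℤ) ≤ u := Int.natCast_nonneg _
  have hY1 : (1 : ℤ) ≤ Y := by linarith
  have hc0 : (0 : ℤ) < c := by linarith
  have htc : (t : ℤ) ≤ c := by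
    have : (t : ℤ) * t ≤ c * c := by rw [ht']; exact hl_sq_le (by linarith) hbc'
    exact hl_le hc0.le this
  have hsc : (s : ℤ) ≤ c := by
    have : (s : ℤ) * s ≤ c * c := by rw [hs']; exact hl_sq_le (by linarith) hac'
    exact hl_le hc0.le this
  have hkb : |k| ≤ 8 * (Y : ℤ) ^ 2 := by
    have hZ := abs_Z (ε := ε) (s := s) (t := t) (μ := μ) (ν := ν) (Y := Y) hε
      (by linarith) (by linarith) hs0 ht0 hac'.le hbc'.le hsc htc hμ0 (by linarith) hμ' hν' hY1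
    rw [hk, abs_mul, abs_of_pos hc0] at hZ
    have : (c : ℤ) * |k| ≤ c * (8 * (Y : ℤ) ^ 2) := by linarith
    exact le_of_mul_le_mul_left this hc0
  have hauc : (u : ℤ) ≤ (Y : ℤ) ^ 2 + 1 := by
    have h1 : (u : ℤ) * u ≤ ((Y : ℤ) ^ 2 + 1) * ((Y : ℤ) ^ 2 + 1) := by
      rw [hu']; exact hl_u hag'
    exact hl_le (by positivity) h1
  have haY : (a : ℤ) ≤ (Y : ℤ) ^ 4 := hl_left ha' hg' hag'
  have hgY : (g : ℤ) ≤ (Y : ℤ) ^ 4 := hl_right ha' hg' hag'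
  have hUb := abs_U (k := k) (ν := ν) (u := u) (m := (a : ℤ) * g) hY' hε hkb (by linarith) hν'
    hu0 hauc (by positivity) hag'
  have hVb := abs_V (k := k) (ν := ν) (u := u) hY' hkb (by linarith) hν' hu0 hauc
  have hR := abs_R (k := k) (a := a) (g := g) (s := s) (μ := μ) hY' hε (by linarith)
    (by linarith) haY hgY hs0 hkb hμ0 hμ'
  have hlin : (-2 * ε * (ν : ℤ) ^ 2 - 2 * u * ν - k * (1 + 2 * ((a : ℤ) * g))) * b +
      (-2 * ν - 2 * u * k) * ((r * v : ℕ) : ℤ) =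
      -(2 * ε * (a * (μ : ℤ) ^ 2) + 2 * (s * μ) - k * (a + g)) := by
    push_cast
    rw [hc', hte] at hk
    linear_combination hk
  have hN : (r * v) * (r * v) = (a * b + 1) * (g * b + 1) := by
    have h1 := ne.hr
    have h2 := ne.hv
    calc (r * v) * (r * v) = (r * r) * (v * v) := by ring
      _ = (a * b + 1) * (g * b + 1) := by rw [h1, h2]; ring
  have hYle7 : (Y : ℤ) ^ 4 ≤ (Y : ℤ) ^ 7 := pow_le_pow_right₀ hY1 (by norm_num)
  rcases hirr a g b (r * v) u _ _ ((Y : ℤ) ^ 7) ha hg hb ne.hu hN (one_le_pow₀ hY1)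
      (haY.trans hYle7) (hgY.trans hYle7) hUb hVb with ⟨hU0, hV0⟩ | hB
  · exfalso
    have h1 : (ν : ℤ) = -(u * k) := by linarith
    have h2 : k * (1 - 2 * ε * (u * u) * k) = 0 := by
      rw [h1] at hU0
      have e : (a : ℤ) * g = u * u - 1 := by rw [hu']; ring
      rw [e] at hU0
      linear_combination hU0
    rcases mul_eq_zero.1 h2 with h3 | h3
    · rw [h3] at h1; simp at h1; omega
    · have h5 : 2 * (ε * (u * u) * k) = 1 := by linarith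
      omega
  · rw [hlin, abs_neg] at hB
    have hs2 : (s : ℤ) * s ≤ 17 * (Y : ℤ) ^ 8 * b := by
      rw [hs']
      have h1 : (a : ℤ) * c ≤ 16 * ((a * g) * a) * b := by
        have := mul_le_mul_of_nonneg_left hcle (show (0 : ℤ) ≤ a by positivity)
        linarith
      have h2 : ((a : ℤ) * g) * a ≤ (Y : ℤ) ^ 8 := by
        have := mul_le_mul hag' haY (by positivity) (by positivity)
        calc _ ≤ _ := this
          _ = _ := by ring
      have h3 : ((a : ℤ) * g * a) * b ≤ (Y : ℤ) ^ 8 * b := mul_le_mul_of_nonneg_right h2 (by linarith)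
      have h4 : (1 : ℤ) ≤ (Y : ℤ) ^ 8 * b := one_le_mul_of_one_le_of_one_le (one_le_pow₀ hY1) hb'
      linarith
    have hB3 : (b : ℤ) ≤ (Y : ℤ) ^ 68 := by
      apply b_bound hY' hb' hs0 hs2
      calc (b : ℤ) ≤ _ := hB
        _ ≤ _ := mul_le_mul_of_nonneg_left (by linarith) (by positivity)
    have hfin : (c : ℤ) ≤ (Y : ℤ) ^ 5000 := by
      have h1 : ((a : ℤ) * g) * b ≤ (Y : ℤ) ^ 4 * (Y : ℤ) ^ 68 :=
        mul_le_mul hag' hB3 (by linarith) (by positivity)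
      calc (c : ℤ) ≤ 16 * (a * b * g) := hcle
        _ = 16 * (((a : ℤ) * g) * b) := by ring
        _ ≤ 16 * ((Y : ℤ) ^ 4 * (Y : ℤ) ^ 68) := by linarith
        _ ≤ Y * ((Y : ℤ) ^ 4 * (Y : ℤ) ^ 68) := mul_le_mul_of_nonneg_right (by linarith) (by positivity)
        _ = (Y : ℤ) ^ 73 := by ring
        _ ≤ (Y : ℤ) ^ 5000 := pow_le_pow_right₀ hY1 (by norm_num)
    exact_mod_cast hfin

theorem pr1 (hirr : IrrStatement) : Pr1Statement := by
  intro a b c r s t g u v w ε μ ν Y hab ne hε hν hY hμ hνY hdiv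
  by_cases hag : a * g ≤ Y ^ 4
  · exact small hirr hab ne hε hν hY hμ hνY hag hdiv
  · exfalso
    push Not at hag
    have hb := ne.hb
    have hc : 4 * Y ^ 4 * b < c := by
      have h1 := ne.c_gt
      have h2 : Y ^ 4 * b < a * g * b := Nat.mul_lt_mul_of_pos_right hag hb
      calc 4 * Y ^ 4 * b = 4 * (Y ^ 4 * b) := by ring
        _ ≤ 4 * (a * g * b) := by omega
        _ = 4 * (a * b * g) := by ring
        _ < c := h1
    exact large (a := a) (b := b) (c := c) (s := s) (t := t) (μ := μ) (ν := ν) (Y := Y) (r := r)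
      (by exact_mod_cast ne.ha) (by exact_mod_cast hab) (by exact_mod_cast ne.hr)
      (Int.natCast_nonneg _) (by exact_mod_cast ne.hs) (by exact_mod_cast ne.ht)
      (Int.natCast_nonneg _) (Int.natCast_nonneg _) hε (by exact_mod_cast hν)
      (by exact_mod_cast hY) (Int.natCast_nonneg _) (by exact_mod_cast hμ)
      (by exact_mod_cast hνY) (by exact_mod_cast hc) hdiv

end Pool.Agent.DIO.H58
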