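import Mathlib

/-! # DIO (MP_9ca527_nt), Part F: the threshold lemma. -/

set_option autoImplicit false

namespace Pool.Agent.DIO.H58

open Real Filter

/-- Powers of a polylogarithmic bound are smaller than `c`. -/
theorem thr (C : ℝ) : ∃ C1 : ℕ, ∀ c : ℕ, C1 < c →
    ∃ Y : ℕ, 100 ≤ Y ∧ C * (log c) ^ 61 ≤ Y ∧ Y ^ 5000 < c ∧ 10 ^ 9 ≤ c := by
  have h1 : ∀ᶠ x : ℝ in atTop, log x ^ 310000 < x := by
    have h := (Real.isLittleO_pow_log_id_atTop (n := 310000)).def (show (0 : ℝ) < 1 / 2 by norm_num)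
    filter_upwards [h, eventually_gt_atTop (1 : ℝ)] with x hx hx1
    simp only [id, Real.norm_eq_abs] at hx
    have h2 : |x| = x := abs_of_pos (by linarith)
    rw [h2] at hx
    have := le_abs_self (log x ^ 310000)
    linarith
  have h2 : ∀ᶠ x : ℝ in atTop, |C| + 101 ≤ log x :=
    tendsto_log_atTop.eventually (eventually_ge_atTop _)
  have h3 := h1.and (h2.and (eventually_ge_atTop ((10 : ℝ) ^ 9)))
  obtain ⟨X, hX⟩ := eventually_atTop.1 h3
  refine ⟨⌈X⌉₊, fun c hc => ?_⟩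
  have hXc : X ≤ c := (Nat.le_ceil X).trans (by exact_mod_cast hc.le)
  obtain ⟨e1, e2, e3⟩ := hX c hXc
  have hL1 : (1 : ℝ) ≤ log c := by
    have := abs_nonneg C
    linarith
  have hL0 : (0 : ℝ) ≤ log c := by linarith
  refine ⟨max 100 ⌈C * (log c) ^ 61⌉₊, le_max_left _ _, ?_, ?_, by exact_mod_cast e3⟩
  · exact (Nat.le_ceil _).trans (by exact_mod_cast le_max_right _ _)
  · have hp : (1 : ℝ) ≤ (log c) ^ 61 := one_le_pow₀ hL1
    have hY : ((max 100 ⌈C * (log c) ^ 61⌉₊ : ℕ) : ℝ) ≤ (log c) ^ 62 := by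
      have a1 : (⌈C * (log c) ^ 61⌉₊ : ℝ) ≤ |C| * (log c) ^ 61 + 1 := by
        have b1 : C * (log c) ^ 61 ≤ |C| * (log c) ^ 61 :=
          mul_le_mul_of_nonneg_right (le_abs_self C) (by positivity)
        have b2 : ⌈C * (log c) ^ 61⌉₊ ≤ ⌈|C| * (log c) ^ 61⌉₊ := Nat.ceil_mono b1
        have b3 : (⌈|C| * (log c) ^ 61⌉₊ : ℝ) < |C| * (log c) ^ 61 + 1 :=
          Nat.ceil_lt_add_one (by positivity)
        have b4 : (⌈C * (log c) ^ 61⌉₊ : ℝ) ≤ ⌈|C| * (log c) ^ 61⌉₊ := by exact_mod_cast b2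
        linarith
      have a2 : |C| * (log c) ^ 61 + 101 ≤ (log c) ^ 62 := by
        have b1 : (log c) ^ 62 = log c * (log c) ^ 61 := by ring
        rw [b1]
        have b2 : (|C| + 101) * (log c) ^ 61 ≤ log c * (log c) ^ 61 :=
          mul_le_mul_of_nonneg_right e2 (by positivity)
        linarith
      have a3 : (0 : ℝ) ≤ |C| * (log c) ^ 61 := by positivity
      rw [Nat.cast_max]
      apply max_le
      · push_cast; linarith
      · linarith
    have h5 : (((max 100 ⌈C * (log c) ^ 61⌉₊ : ℕ) : ℝ)) ^ 5000 < c := by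
      calc (((max 100 ⌈C * (log c) ^ 61⌉₊ : ℕ) : ℝ)) ^ 5000 ≤ ((log c) ^ 62) ^ 5000 :=
            pow_le_pow_left₀ (Nat.cast_nonneg _) hY _
        _ = (log c) ^ 310000 := by rw [← pow_mul]
        _ < c := e1
    exact_mod_cast h5

end Pool.Agent.DIO.H58
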