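import Pool.Agent.Helper40_Dio.FStmt
import Pool.Agent.Helper58_Dio.Thr

/-! # DIO (MP_9ca527_nt), Part F: QTE, the even type. -/

set_option autoImplicit false

namespace Pool.Agent.DIO.H58

open Pool.Agent.DIO

/-- `b = d₋(a, c, g)` -/
theorem e1_eq {a b c g r s u v w : ℤ} (hr : r * r = a * b + 1) (hu : u * u = a * g + 1)
    (hv : v * v = b * g + 1) (hc : c = a + b + g + 2 * a * b * g + 2 * (r * (u * v)))
    (hs : s = a * v + r * u) (hw : w = g * r + u * v) :
    a + c + g + 2 * a * c * g - 2 * s * u * w = b := by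
  rw [hs, hw, hc]
  linear_combination (-2 * r * u * v - 2 * a * v ^ 2 - 2 * g * (a * b + 1)) * hu -
    2 * a * (a * g + 1) * hv - 2 * g * u ^ 2 * hr

theorem sq_one {n : ℕ} (h : n * n = 1) : n = 1 := by
  rcases n with _ | _ | n
  · omega
  · rfl
  · exfalso; nlinarith

theorem sq_inj {m n : ℕ} (h : m * m = n * n) : m = n := Nat.mul_self_inj.1 h

/-- `μ = ν = 1`, `ε = -1` gives `d = d₊` -/
theorem reg {a b c d r s t g u v w : ℕ} {x y z : ℤ} (hctx : Ctx a b c d r s t x y z)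
    (ne : NEd a b c r s t g u v w) (h : sqg a c s (-1 * (w : ℤ)) u 2 = (z, x)) :
    RegQ a b c d := by
  have h1 : (s : ℤ) * (s * (-1 * w) + c * u) + c * (s * u + a * (-1 * w)) = z := by
    have := congrArg Prod.fst h
    simpa [sqg] using this
  have hw : (w : ℤ) + s * t = c * r := by exact_mod_cast ne.w_eq'
  have hu : (u : ℤ) + a * t = r * s := by exact_mod_cast ne.u_eq'
  have hs : (s : ℤ) * s = a * c + 1 := by exact_mod_cast ne.hs
  have ht : (t : ℤ) * t = b * c + 1 := by exact_mod_cast ne.ht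
  have hr : (r : ℤ) * r = a * b + 1 := by exact_mod_cast ne.hr
  have hz : z = c * r + s * t := by
    have hw' : (w : ℤ) = c * r - s * t := by linarith
    have hu' : (u : ℤ) = r * s - a * t := by linarith
    rw [← h1, hw', hu']
    linear_combination (c * r + s * t) * hs
  have hc0 : (c : ℤ) ≠ 0 := by
    have := hctx.hbc
    have : 0 < c := by omega
    exact_mod_cast this.ne'
  have hd : (d : ℤ) = a + b + c + 2 * a * b * c + 2 * r * (s * t) := by
    have h2 := hctx.z2
    rw [hz] at h2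
    have h3 : (c : ℤ) * d = c * (a + b + c + 2 * a * b * c + 2 * r * (s * t)) := by
      linear_combination (-1 : ℤ) * h2 + c * c * hr + hs * (t * t) + (a * c + 1) * ht
    exact mul_left_cancel₀ hc0 h3
  have h2 := hctx.z2
  unfold RegQ
  rw [← h2, ← hr, hz, hd]
  linear_combination (4 * ((a : ℤ) * b * c + c + r * (s * t)) + 4 * r * (c * r + s * t)) * (-(c : ℤ)) * hr

theorem qte (hapx : ApxStatement) (hmce : MceStatement) (hsge : SgeStatement)
    (hpr1 : Pr1Statement) (hpg1 : Pg1Statement) (hpg3 : Pg3Statement) : QteStatement := by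
  obtain ⟨C, hC1, hC⟩ := hapx
  obtain ⟨C1, hthr⟩ := thr C
  refine ⟨C1, ?_⟩
  intro a b c d r s t g u v w x y z f W F1 F2 ε μ ν hc hctx ne hreg hE
  obtain ⟨Y, hY, hYC, hY5, hc9⟩ := hthr c hc
  obtain ⟨hμR, hνR⟩ := (hC a b c d r s t g u v w x y z hctx ne).1 f W F1 F2 ε μ ν hE
  have hμ : μ ≤ Y := by exact_mod_cast hμR.trans hYC
  have hν : ν ≤ Y := by exact_mod_cast hνR.trans hYC
  have hs := ne.hs
  have ht := ne.ht
  have hE' := hE
  obtain ⟨hε, hW, hF1, hF2, hfc, hμ1, hν1, hz1, hz2⟩ := hE'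
  have hdiv := hmce a b c s t x y z f W F1 F2 ε _ _ μ ν hs ht hE rfl rfl
  constructor
  · -- `f > 0`
    rcases Nat.eq_zero_or_pos f with hf | hf
    · exfalso
      subst hf
      have hW1 : W = 1 := sq_one (by simpa using hW)
      have hF11 : F1 = 1 := sq_one (by simpa using hF1)
      have hF21 : F2 = 1 := sq_one (by simpa using hF2)
      subst hW1 hF11 hF21
      have h1 : (c : ℤ) ∣ 2 * ε * (a * (μ : ℤ) ^ 2 - b * (ν : ℤ) ^ 2) + 2 * s * μ - 2 * t * ν := by
        have h2 := dvd_add hdiv (Dvd.intro ((μ : ℤ) - ν) rfl)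
        have e : 2 * ε * ((a : ℤ) * (μ : ℤ) ^ 2 - b * (ν : ℤ) ^ 2) + 2 * s * μ - 2 * t * ν =
            2 * ε * (a * (μ : ℤ) ^ 2 - b * (ν : ℤ) ^ 2) +
            (a + (0 : ℕ) - (a + c + (0 : ℕ) + 2 * a * c * (0 : ℕ) - 2 * s * (1 : ℕ) * (1 : ℕ))) * μ -
            (b + (0 : ℕ) - (b + c + (0 : ℕ) + 2 * b * c * (0 : ℕ) - 2 * t * (1 : ℕ) * (1 : ℕ))) * ν +
            c * ((μ : ℤ) - ν) := by
          push_cast
          ring
        rw [e]
        exact h2
      have := hpr1 a b c r s t g u v w ε μ ν Y hctx.hab ne hε hν1 hY hμ hν h1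
      omega
    · exact hf
  · -- `f ≠ g`
    intro hfg
    subst hfg
    have hg := ne.hg
    have hWw : W = w := sq_inj (hW.trans ne.hw.symm)
    have hF1u : F1 = u := sq_inj (hF1.trans ne.hu.symm)
    have hF2v : F2 = v := sq_inj (hF2.trans ne.hv.symm)
    subst hWw hF1u hF2v
    have hr' : (r : ℤ) * r = a * b + 1 := by exact_mod_cast ne.hr
    have hu' : (F1 : ℤ) * F1 = a * f + 1 := by exact_mod_cast ne.hu
    have hv' : (F2 : ℤ) * F2 = b * f + 1 := by exact_mod_cast ne.hv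
    have hc' : (c : ℤ) = a + b + f + 2 * a * b * f + 2 * (r * (F1 * F2)) := by
      exact_mod_cast ne.hc
    have hse : (s : ℤ) = a * F2 + r * F1 := by exact_mod_cast ne.s_eq
    have hte : (t : ℤ) = b * F1 + r * F2 := by exact_mod_cast ne.t_eq
    have hwe : (W : ℤ) = f * r + F1 * F2 := by exact_mod_cast ne.w_eq
    have e1 : (a : ℤ) + c + f + 2 * a * c * f - 2 * s * F1 * W = b := by
      have := e1_eq hr' hu' hv' hc' hse hwe
      rw [← this]
    have e2 : (b : ℤ) + c + f + 2 * b * c * f - 2 * t * F2 * W = a := by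
      have h1 : (c : ℤ) = b + a + f + 2 * b * a * f + 2 * (r * (F2 * F1)) := by rw [hc']; ring
      have h2 : (t : ℤ) = b * F1 + r * F2 := hte
      have h3 : (W : ℤ) = f * r + F2 * F1 := by rw [hwe]; ring
      have h4 : (r : ℤ) * r = b * a + 1 := by rw [hr']; ring
      have := e1_eq h4 hv' hu' h1 h2 h3
      rw [← this]
    rw [e1, e2] at hdiv
    have hrel : (c : ℤ) ∣ relG a b f ε μ ν := by
      have h1 := (dvd_neg (a := (c : ℤ))).2 hdiv
      have e : relG a b f ε μ ν = -(2 * ε * (a * (μ : ℤ) ^ 2 - b * (ν : ℤ) ^ 2) +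
          (a + f - b) * μ - (b + f - a) * ν) := by
        unfold relG; ring
      rw [e]; exact h1
    obtain ⟨hνμ, hμ2, heq, hsz⟩ := hsge a b c d r s t f F1 F2 W x y z f W F1 F2 ε μ ν hctx ne hE hg
    rcases Nat.lt_or_eq_of_le hνμ with hlt | hEq
    · by_cases hsmall : a * f ≤ Y ^ 420 ∨ a * b ≤ Y ^ 420
      · have := hpg1 a b c r s t f F1 F2 W ε μ ν Y hctx.hab ne hε hν1 hlt hY hμ hrel hsmall
        omega
      · push Not at hsmall
        exact hpg3 a b c r s t f F1 F2 W ε μ ν Y hctx.hab ne hε hν1 hlt hμ2 hY hμ hc9 hsz hrel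
          hsmall.1 hsmall.2
    · obtain ⟨h1, h2⟩ := heq hEq.symm
      subst h1
      subst h2
      rw [← hEq] at hz1
      exact hreg (reg hctx ne (by simpa using hz1))

end Pool.Agent.DIO.H58
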